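import Pool.Agent.Run7.h151.FN.Final

/-!
# Vojta's inequality with truncated counting function on the projective line: the number of the
# exceptions of all heights, up to the second order term

`K` is a number field, `S` a finite set of primes, `D = α_1 + … + α_q` a sum of `q ≥ 3` different
`K`-rational points of the projective line. Heights and counting functions are relative to `K`, as in
the problem. The conjecture says that `N_S^(1)(D, P) > (q - κ) h(P) + c` for almost all points `P` of
the line over `K`, for every `κ > 2`. For small `κ > 0` we determine the number of the exceptions to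
this inequality, of whatever height, with `exp N_S^(1)(D, P) ≤ X`: it is

  `X ^ ((2 - κ) / (q - κ)) * exp ((√(8 q κ / (q - κ)) + o(1)) √(log X / log log X))`.

Proof. `h(P)` near `log X / (q - κ)` gives the main term. The points with `h(P) ≤ m` and
`N_S^(1)(D, P) ≤ q h(P) - G` are at most `exp (2 m - G + (1 + ε) √(8 q G / log m))`, uniformly in `G`
(starting library, N906/QP: a gap principle for the points with given squareful parts of the ideals
`(P - α_l)` and Rankin's method); this is summed over the windows `m - 1 < h(P) ≤ m` with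
`G = max (κ m, q m - log X)`. The points with `h(P)` larger than `log X / (q - κ)` by a factor greater
than one are fewer by a power of `X`, whatever their height (starting library, R365/SH). The lower
bound is the one of N906/QP for the height `log X / (q - κ)`.
-/

set_option autoImplicit false

namespace Pool.Agent.Results.MP_44a246_nt.SecondOrderAllHeights

open NumberField IsDedekindDomain Filter Topology

section

variable {K : Type} [Field K] [NumberField K]

/-- the logarithmic height of a point of the projective line, relative to `K` -/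
noncomputable def height (P : Projectivization K (Fin 2 → K)) : ℝ := Height.logHeight P.rep

/-- the local height `λ_v(a, P) = log (max |P_i|_v max |a_i|_v / |P_0 a_1 - P_1 a_0|_v)` relative to
the point `a = [a 0 : a 1]`, for a prime `v` of `K`, where `|π|_v = 1 / N(v)` for a uniformiser `π` -/
noncomputable def localHeight (v : HeightOneSpectrum (𝓞 K)) (a : Fin 2 → K)
    (P : Projectivization K (Fin 2 → K)) : ℝ :=
  Real.log (max (FinitePlace.mk v (P.rep 0)) (FinitePlace.mk v (P.rep 1)) *
    max (FinitePlace.mk v (a 0)) (FinitePlace.mk v (a 1)) /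
      FinitePlace.mk v (P.rep 0 * a 1 - P.rep 1 * a 0))

/-- the truncated counting function `N_S^(1)(D, P)` of the divisor `D = α_1 + … + α_q`: the sum of
`log N(v)` over the primes `v` outside `S` with `λ_{D,v}(P) > 0`, `λ_{D,v} = ∑ l, λ_v(α_l, ·)` -/
noncomputable def counting (S : Set (HeightOneSpectrum (𝓞 K))) {q : ℕ} (α : Fin q → Fin 2 → K)
    (P : Projectivization K (Fin 2 → K)) : ℝ :=
  ∑ᶠ v ∈ {v : HeightOneSpectrum (𝓞 K) | v ∉ S ∧ 0 < ∑ l, localHeight v (α l) P},
    Real.log (Ideal.absNorm v.asIdeal : ℝ)

/-- the points `P` of the line over `K`, none of the `α_l` and of whatever height, with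
`N_S^(1)(D, P) ≤ (q - κ) h(P) + c` and `exp N_S^(1)(D, P) ≤ X` -/
def Exceptions (S : Set (HeightOneSpectrum (𝓞 K))) {q : ℕ} (α : Fin q → Fin 2 → K) (κ c X : ℝ) :
    Set (Projectivization K (Fin 2 → K)) :=
  {P | (∀ l, P.rep 0 * α l 1 - P.rep 1 * α l 0 ≠ 0) ∧ Real.exp (counting S α P) ≤ X ∧
    counting S α P ≤ ((q : ℝ) - κ) * height P + c}

theorem exceptions_eq (S : Set (HeightOneSpectrum (𝓞 K))) {q : ℕ} (α : Fin q → Fin 2 → K)
    (κ c : ℝ) {X : ℝ} (hX : 0 < X) :
    Exceptions S α κ c X = Pool.Agent.Run7.h151.FN.PT S α κ c (Real.log X) := by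
  ext P
  constructor
  · rintro ⟨h1, h2, h3⟩
    exact ⟨h1, (Real.le_log_iff_exp_le hX).2 h2, h3⟩
  · rintro ⟨h1, h2, h3⟩
    exact ⟨h1, (Real.le_log_iff_exp_le hX).1 h2, h3⟩

end

/-- **Theorem.** Let `K` be a number field, `S` a finite set of primes of `K` and `α_1, …, α_q`
(`q ≥ 3`) different points of the projective line over `K`, `D = α_1 + … + α_q`. There is `κ₀ > 0` such
that for all `0 < κ < κ₀` and all real `c` the number `V(X)` of the points `P` of the line over `K`,
different from the `α_l` and of whatever height, with `N_S^(1)(D, P) ≤ (q - κ) h(P) + c` and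
`exp N_S^(1)(D, P) ≤ X` is finite, and
`(log V(X) - (2 - κ) / (q - κ) log X) / √(log X / log log X)` tends to `√(8 q κ / (q - κ))`. -/
theorem result : ∀ (K : Type) [Field K] [NumberField K] (S : Set (HeightOneSpectrum (𝓞 K))) (q : ℕ)
    (α : Fin q → Fin 2 → K), S.Finite → 3 ≤ q → (∀ l, α l ≠ 0) →
    (∀ l l', l ≠ l' → α l 0 * α l' 1 - α l 1 * α l' 0 ≠ 0) →
    ∃ κ₀ : ℝ, 0 < κ₀ ∧ ∀ κ c : ℝ, 0 < κ → κ < κ₀ →
      (∀ X : ℝ, (Exceptions S α κ c X).Finite) ∧
      Tendsto (fun X : ℝ => (Real.log ((Exceptions S α κ c X).ncard : ℝ) -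
          (2 - κ) / ((q : ℝ) - κ) * Real.log X) / √(Real.log X / Real.log (Real.log X))) atTop
        (𝓝 √(8 * q * κ / ((q : ℝ) - κ))) := by
  intro K _ _ S q α hS hq hα0 hα
  obtain ⟨κ₀, h0, h⟩ := Pool.Agent.Run7.h151.FN.PT_final hS hq hα0 hα
  refine ⟨κ₀, h0, fun κ c hκ0 hκ => ?_⟩
  obtain ⟨h1, h2⟩ := h κ c hκ0 hκ
  refine ⟨fun X => ?_, h2.congr' ?_⟩
  · rcases le_or_gt X 0 with hX | hX
    · refine Set.Finite.subset Set.finite_empty ?_
      rintro P ⟨-, g, -⟩
      exact absurd (Real.exp_pos (counting S α P)) (not_lt.2 (g.trans hX))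
    · rw [exceptions_eq S α κ c hX]
      exact h1 _
  · filter_upwards [eventually_gt_atTop (0 : ℝ)] with X hX
    rw [exceptions_eq S α κ c hX]

end Pool.Agent.Results.MP_44a246_nt.SecondOrderAllHeights
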